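import Mathlib

set_option autoImplicit false
set_option linter.unusedSectionVars false

open OnePoint Matrix

namespace Pool.Agent.Helper51

/-- A field with an involutory automorphism `σ` and a `σ`-invariant sign character. -/
structure TwData (K : Type) [Field K] where
  σ : K ≃+* K
  hσ : ∀ x, σ (σ x) = x
  κ : Kˣ →* ℤˣ
  hκ : ∀ c : Kˣ, κ (Units.map (σ : K →* K) c) = κ c

namespace TwData

variable {K : Type} [Field K] [DecidableEq K] (D : TwData K)

/-- the twist on `K` -/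
noncomputable def s (ε : ℤˣ) : K →+* K :=
  if ε = 1 then RingHom.id K else (D.σ : K →+* K)

lemma s_one (x : K) : D.s 1 x = x := by simp [s]
lemma s_neg_one (x : K) : D.s (-1) x = D.σ x := by simp [s]

lemma s_mul (a b : ℤˣ) (x : K) :
    D.s a (D.s b x) = D.s (a * b) x := by
  rcases Int.units_eq_one_or a with rfl | rfl <;> rcases Int.units_eq_one_or b with rfl | rfl <;>
    simp [s_one, s_neg_one, D.hσ]

/-- the twist on the projective line -/
noncomputable def S (ε : ℤˣ) (x : OnePoint K) : OnePoint K := OnePoint.map (D.s ε) x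

lemma S_mul (a b : ℤˣ) (x : OnePoint K) :
    D.S a (D.S b x) = D.S (a * b) x := by
  cases x with
  | infty => simp [S]
  | coe x => simp [S, s_mul]

lemma S_one (x : OnePoint K) : D.S 1 x = x := by
  cases x <;> simp [S, s_one]

lemma S_infty (a : ℤˣ) : D.S a ∞ = ∞ := by simp [S]
lemma S_coe (a : ℤˣ) (x : K) : D.S a (x : OnePoint K) = ((D.s a x : K) : OnePoint K) := by simp [S]
lemma S_zero (a : ℤˣ) : D.S a ((0 : K) : OnePoint K) = ((0 : K) : OnePoint K) := by simp [S_coe]
lemma S_one' (a : ℤˣ) : D.S a ((1 : K) : OnePoint K) = ((1 : K) : OnePoint K) := by simp [S_coe]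

lemma S_smul (a : ℤˣ) (A : GL (Fin 2) K) (x : OnePoint K) :
    D.S a (A • x) = (GeneralLinearGroup.map (D.s a) A) • D.S a x := by
  unfold S
  exact OnePoint.map_smul (D.s a) A x

lemma kappa_s (a : ℤˣ) (c : Kˣ) :
    D.κ (Units.map (D.s a : K →* K) c) = D.κ c := by
  rcases Int.units_eq_one_or a with rfl | rfl
  · congr 1
  · rw [← D.hκ c]
    congr 1

/-- the sign of a matrix -/
noncomputable def k (A : GL (Fin 2) K) : ℤˣ := D.κ (GeneralLinearGroup.det A)

lemma k_mul (A B : GL (Fin 2) K) : D.k (A * B) = D.k A * D.k B := by simp [k]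
lemma k_one : D.k (1 : GL (Fin 2) K) = 1 := by simp [k]
lemma k_inv (A : GL (Fin 2) K) : D.k A⁻¹ = D.k A := by
  simp [k]

lemma k_map (a : ℤˣ) (A : GL (Fin 2) K) : D.k (GeneralLinearGroup.map (D.s a) A) = D.k A := by
  unfold k
  rw [GeneralLinearGroup.map_det]
  exact D.kappa_s a _

/-- twisted linear fractional maps. -/
def IsTw (f : Equiv.Perm (OnePoint K)) : Prop :=
  ∃ A : GL (Fin 2) K, ∀ x, f x = A • D.S (D.k A) x

/-- The twisted projective group. -/
def Tw : Subgroup (Equiv.Perm (OnePoint K)) where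
  carrier := {f | D.IsTw f}
  mul_mem' := by
    rintro f g ⟨A, hA⟩ ⟨B, hB⟩
    refine ⟨A * GeneralLinearGroup.map (D.s (D.k A)) B, fun x => ?_⟩
    rw [D.k_mul, D.k_map, Equiv.Perm.mul_apply, hA, hB, D.S_smul, D.S_mul, mul_smul]
  one_mem' := by
    refine ⟨1, fun x => ?_⟩
    simp [D.k_one, D.S_one]
  inv_mem' := by
    rintro f ⟨A, hA⟩
    refine ⟨GeneralLinearGroup.map (D.s (D.k A)) A⁻¹, fun x => ?_⟩
    rw [D.k_map, D.k_inv, Equiv.Perm.inv_eq_iff_eq, hA, D.S_smul, D.S_mul]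
    have h1 : D.k A * D.k A = 1 := Int.units_mul_self _
    rw [h1, D.S_one]
    have h2 : (GeneralLinearGroup.map (D.s (D.k A))) ((GeneralLinearGroup.map (D.s (D.k A))) A⁻¹)
        = A⁻¹ := by
      ext i j
      simp only [GeneralLinearGroup.map_apply, D.s_mul, h1, D.s_one]
    rw [h2, smul_inv_smul]

/-- the permutation attached to a matrix -/
noncomputable def perm (A : GL (Fin 2) K) : Equiv.Perm (OnePoint K) where
  toFun x := A • D.S (D.k A) x
  invFun y := D.S (D.k A) (A⁻¹ • y)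
  left_inv x := by
    simp only [inv_smul_smul, D.S_mul, Int.units_mul_self, D.S_one]
  right_inv x := by
    simp only [smul_inv_smul, D.S_mul, Int.units_mul_self, D.S_one]

lemma perm_apply (A : GL (Fin 2) K) (x : OnePoint K) : D.perm A x = A • D.S (D.k A) x := rfl

lemma perm_mem (A : GL (Fin 2) K) : D.perm A ∈ D.Tw := ⟨A, fun _ => rfl⟩

lemma GL_trans (a b c : OnePoint K) (hab : a ≠ b) (hac : a ≠ c) (hbc : b ≠ c) :
    ∃ A : GL (Fin 2) K, A • (∞ : OnePoint K) = a ∧ A • ((0 : K) : OnePoint K) = b ∧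
      A • ((1 : K) : OnePoint K) = c := by
  -- first move infinity to a
  obtain ⟨A, hA⟩ : ∃ A : GL (Fin 2) K, A • (∞ : OnePoint K) = a := by
    cases a with
    | infty => exact ⟨1, by simp⟩
    | coe a =>
      refine ⟨GeneralLinearGroup.mkOfDetNeZero !![a, -1; 1, 0] (by simp), ?_⟩
      rw [OnePoint.smul_infty_eq_ite]
      simp [GeneralLinearGroup.mkOfDetNeZero]
  obtain ⟨b', hb'⟩ : ∃ b' : K, A⁻¹ • b = (b' : OnePoint K) := by
    have h : A⁻¹ • b ≠ ∞ := by
      intro h
      rw [inv_smul_eq_iff, hA] at h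
      exact hab h.symm
    obtain ⟨b', hb'⟩ := OnePoint.ne_infty_iff_exists.mp h
    exact ⟨b', hb'.symm⟩
  obtain ⟨c', hc'⟩ : ∃ c' : K, A⁻¹ • c = (c' : OnePoint K) := by
    have h : A⁻¹ • c ≠ ∞ := by
      intro h
      rw [inv_smul_eq_iff, hA] at h
      exact hac h.symm
    obtain ⟨c', hc'⟩ := OnePoint.ne_infty_iff_exists.mp h
    exact ⟨c', hc'.symm⟩
  have hne : c' - b' ≠ 0 := by
    intro h
    rw [sub_eq_zero] at h
    rw [h, ← hb'] at hc'
    exact hbc (smul_left_cancel _ hc').symm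
  refine ⟨A * GeneralLinearGroup.mkOfDetNeZero !![c' - b', b'; 0, 1] (by simpa using hne), ?_, ?_, ?_⟩
  · rw [mul_smul]
    convert hA using 2
    rw [OnePoint.smul_infty_eq_ite]
    simp [GeneralLinearGroup.mkOfDetNeZero]
  · rw [mul_smul, ← eq_inv_smul_iff]
    rw [hb', OnePoint.smul_some_eq_ite]
    simp [GeneralLinearGroup.mkOfDetNeZero]
  · rw [mul_smul, ← eq_inv_smul_iff]
    rw [hc', OnePoint.smul_some_eq_ite]
    simp [GeneralLinearGroup.mkOfDetNeZero]

lemma Tw_trans (a b c : OnePoint K) (hab : a ≠ b) (hac : a ≠ c) (hbc : b ≠ c) :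
    ∃ g : D.Tw, g • (∞ : OnePoint K) = a ∧ g • ((0 : K) : OnePoint K) = b ∧
      g • ((1 : K) : OnePoint K) = c := by
  obtain ⟨A, h1, h2, h3⟩ := GL_trans a b c hab hac hbc
  refine ⟨⟨D.perm A, D.perm_mem A⟩, ?_, ?_, ?_⟩
  · change D.perm A ∞ = a
    rw [perm_apply, S_infty, h1]
  · change D.perm A ((0 : K) : OnePoint K) = b
    rw [perm_apply, S_zero, h2]
  · change D.perm A ((1 : K) : OnePoint K) = c
    rw [perm_apply, S_one', h3]

lemma diag_form (g : Equiv.Perm (OnePoint K)) (hg : D.IsTw g) (h1 : g ∞ = ∞)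
    (h0 : g ((0 : K) : OnePoint K) = ((0 : K) : OnePoint K)) :
    ∃ u : Kˣ, ∀ x : K, g (x : OnePoint K) = (((u : K) * D.s (D.κ u) x : K) : OnePoint K) := by
  obtain ⟨A, hA⟩ := hg
  rw [hA, S_infty, OnePoint.smul_infty_eq_self_iff] at h1
  have hdet : (GeneralLinearGroup.det A : K) = A 0 0 * A 1 1 := by
    rw [GeneralLinearGroup.val_det_apply, Matrix.det_fin_two, h1]; ring
  have hne : A 0 0 * A 1 1 ≠ 0 := by
    rw [← hdet]; exact Units.ne_zero _
  have h00 : A 0 0 ≠ 0 := left_ne_zero_of_mul hne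
  have h11 : A 1 1 ≠ 0 := right_ne_zero_of_mul hne
  rw [hA, S_zero, OnePoint.smul_some_eq_ite, h1] at h0
  have h01 : A 0 1 = 0 := by
    simpa [h11] using h0
  refine ⟨Units.mk0 (A 0 0 / A 1 1) (div_ne_zero h00 h11), fun x => ?_⟩
  have hκ : D.κ (Units.mk0 (A 0 0 / A 1 1) (div_ne_zero h00 h11)) = D.k A := by
    have : GeneralLinearGroup.det A = Units.mk0 (A 0 0 / A 1 1) (div_ne_zero h00 h11) *
        (Units.mk0 (A 1 1) h11 * Units.mk0 (A 1 1) h11) := by
      ext
      rw [hdet]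
      simp only [Units.val_mul, Units.val_mk0]
      field_simp
    unfold k
    rw [this, map_mul, map_mul, Int.units_mul_self, mul_one]
  rw [hκ, hA, S_coe, OnePoint.smul_some_eq_ite, h1, h01]
  simp [h11, div_mul_eq_mul_div]

lemma eq_one_of (g : Equiv.Perm (OnePoint K)) (h1 : g ∞ = ∞) (u : Kˣ) (hu : (u : K) = 1)
    (h : ∀ x : K, g (x : OnePoint K) = (((u : K) * D.s (D.κ u) x : K) : OnePoint K)) : g = 1 := by
  have hu' : u = 1 := by ext; simpa using hu
  subst hu'
  ext x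
  cases x with
  | infty => simpa using h1
  | coe x => simp [h, s_one]

lemma stab_three (g : Equiv.Perm (OnePoint K)) (hg : D.IsTw g) (h1 : g ∞ = ∞)
    (h0 : g ((0 : K) : OnePoint K) = ((0 : K) : OnePoint K))
    (h2 : g ((1 : K) : OnePoint K) = ((1 : K) : OnePoint K)) : g = 1 := by
  obtain ⟨u, hu⟩ := D.diag_form g hg h1 h0
  refine D.eq_one_of g h1 u ?_ hu
  rw [hu] at h2
  simpa using h2

lemma stab_two [CharP K 2] (g : Equiv.Perm (OnePoint K)) (hg : D.IsTw g) (h1 : g ∞ = ∞)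
    (h0 : g ((0 : K) : OnePoint K) = ((0 : K) : OnePoint K))
    (h2 : g * g = 1) : g = 1 := by
  obtain ⟨u, hu⟩ := D.diag_form g hg h1 h0
  refine D.eq_one_of g h1 u ?_ hu
  have h3 : g (g ((1 : K) : OnePoint K)) = ((1 : K) : OnePoint K) := by
    rw [← Equiv.Perm.mul_apply, h2]; rfl
  rw [hu, hu] at h3
  simp only [map_one, mul_one, OnePoint.coe_eq_coe] at h3
  rcases Int.units_eq_one_or (D.κ u) with hk | hk
  · rw [hk, s_one] at h3
    have h4 : ((u : K) - 1) ^ 2 = 0 := by
      rw [sub_sq, sq, h3]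
      have : (2 : K) = 0 := CharTwo.two_eq_zero
      rw [this]; ring_nf
      rw [this]
    exact sub_eq_zero.mp (pow_eq_zero_iff (two_ne_zero) |>.mp h4)
  · rw [hk, s_neg_one] at h3
    by_contra hne
    have hc : (1 : K) + u ≠ 0 := by
      intro h
      apply hne
      have : (u : K) = -1 := by linear_combination h
      rw [this, CharTwo.neg_eq]
    have h5 : (u : K) * D.σ (1 + u) = 1 + u := by
      rw [map_add, map_one, mul_add, h3]; ring
    have h6 : u * Units.map (D.σ : K →* K) (Units.mk0 _ hc) = Units.mk0 _ hc := by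
      ext
      simpa using h5
    have h7 := congrArg D.κ h6
    rw [map_mul, D.hκ] at h7
    have h8 : D.κ u = 1 := by simpa using h7
    rw [hk] at h8
    exact absurd h8 (by decide)

lemma key [CharP K 2] (hw : ∃ w u : Kˣ, D.κ w = 1 ∧ D.κ u = -1 ∧ D.σ w ≠ w) :
    ¬ (∀ (G X : Type) [Group G] [MulAction G X],
      (∃ a b c : X, a ≠ b ∧ a ≠ c ∧ b ≠ c) →
      (∀ a b c a' b' c' : X, a ≠ b → a ≠ c → b ≠ c → a' ≠ b' → a' ≠ c' → b' ≠ c' →
        ∃ g : G, g • a = a' ∧ g • b = b' ∧ g • c = c') →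
      (∀ a b : X, a ≠ b → ∀ g : G, g • a = a → g • b = b → g * g = 1 → g = 1) →
      (∀ a b c : X, a ≠ b → a ≠ c → b ≠ c → ∀ g : G,
        g • a = a → g • b = b → g • c = c → g = 1) →
      ∃ (P : Type) (_ : Field P), CharP P 2 ∧
        ∃ e : X ≃ Projectivization P (Fin 2 → P),
          ∀ σ : Equiv.Perm (Projectivization P (Fin 2 → P)),
            ((∃ g : G, ∀ x : X, σ (e x) = e (g • x)) ↔
              ∃ A : Matrix.GeneralLinearGroup (Fin 2) P,
                ∀ (v : Fin 2 → P) (hv : v ≠ 0) (w : Fin 2 → P) (hw : w ≠ 0),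
                  w = Matrix.mulVec (A : Matrix (Fin 2) (Fin 2) P) v →
                    σ (Projectivization.mk P v hv) = Projectivization.mk P w hw)) := by
  intro H
  obtain ⟨w, u, hκw, hκu, hσw⟩ := hw
  have h01 : (((0 : K) : OnePoint K)) ≠ ((1 : K) : OnePoint K) := by simp
  have hi0 : (∞ : OnePoint K) ≠ ((0 : K) : OnePoint K) := by simp
  have hi1 : (∞ : OnePoint K) ≠ ((1 : K) : OnePoint K) := by simp
  obtain ⟨P, _, hP2, e, he⟩ := H D.Tw (OnePoint K) ⟨∞, (0 : K), (1 : K), hi0, hi1, h01⟩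
    (by
      intro a b c a' b' c' h1 h2 h3 h1' h2' h3'
      obtain ⟨g, g1, g2, g3⟩ := D.Tw_trans a b c h1 h2 h3
      obtain ⟨g', g1', g2', g3'⟩ := D.Tw_trans a' b' c' h1' h2' h3'
      refine ⟨g' * g⁻¹, ?_, ?_, ?_⟩
      · rw [mul_smul, ← g1, inv_smul_smul, g1']
      · rw [mul_smul, ← g2, inv_smul_smul, g2']
      · rw [mul_smul, ← g3, inv_smul_smul, g3'])
    (by
      intro a b hab g ga gb gg
      obtain ⟨c, hac, hbc⟩ : ∃ c : OnePoint K, a ≠ c ∧ b ≠ c := by
        by_cases h1 : a ≠ ∞ ∧ b ≠ ∞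
        · exact ⟨∞, h1.1, h1.2⟩
        by_cases h2 : a ≠ ((0 : K) : OnePoint K) ∧ b ≠ ((0 : K) : OnePoint K)
        · exact ⟨((0 : K) : OnePoint K), h2.1, h2.2⟩
        refine ⟨((1 : K) : OnePoint K), ?_, ?_⟩
        · rintro rfl
          have hb1 : b = ∞ := by
            by_contra h; exact h1 ⟨hi1.symm, h⟩
          have hb2 : b = ((0 : K) : OnePoint K) := by
            by_contra h; exact h2 ⟨h01.symm, h⟩
          exact hi0 (hb1.symm.trans hb2)
        · rintro rfl
          have hb1 : a = ∞ := by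
            by_contra h; exact h1 ⟨h, hi1.symm⟩
          have hb2 : a = ((0 : K) : OnePoint K) := by
            by_contra h; exact h2 ⟨h, h01.symm⟩
          exact hi0 (hb1.symm.trans hb2)
      obtain ⟨h, g1, g2, g3⟩ := D.Tw_trans a b c hab hac hbc
      have key : h⁻¹ * g * h = 1 := by
        apply Subtype.ext
        refine D.stab_two _ (h⁻¹ * g * h).2 ?_ ?_ ?_
        · change (h⁻¹ * g * h) • (∞ : OnePoint K) = ∞
          rw [mul_smul, mul_smul, g1, ga, ← g1, inv_smul_smul]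
        · change (h⁻¹ * g * h) • ((0 : K) : OnePoint K) = ((0 : K) : OnePoint K)
          rw [mul_smul, mul_smul, g2, gb, ← g2, inv_smul_smul]
        · have : (h⁻¹ * g * h) * (h⁻¹ * g * h) = 1 := by
            have : (h⁻¹ * g * h) * (h⁻¹ * g * h) = h⁻¹ * (g * g) * h := by group
            rw [this, gg]; group
          exact congrArg Subtype.val this
      have : g = h * (h⁻¹ * g * h) * h⁻¹ := by group
      rw [this, key]; group)
    (by
      intro a b c hab hac hbc g ga gb gc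
      obtain ⟨h, g1, g2, g3⟩ := D.Tw_trans a b c hab hac hbc
      have key : h⁻¹ * g * h = 1 := by
        apply Subtype.ext
        refine D.stab_three _ (h⁻¹ * g * h).2 ?_ ?_ ?_
        · change (h⁻¹ * g * h) • (∞ : OnePoint K) = ∞
          rw [mul_smul, mul_smul, g1, ga, ← g1, inv_smul_smul]
        · change (h⁻¹ * g * h) • ((0 : K) : OnePoint K) = ((0 : K) : OnePoint K)
          rw [mul_smul, mul_smul, g2, gb, ← g2, inv_smul_smul]
        · change (h⁻¹ * g * h) • ((1 : K) : OnePoint K) = ((1 : K) : OnePoint K)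
          rw [mul_smul, mul_smul, g3, gc, ← g3, inv_smul_smul]
      have : g = h * (h⁻¹ * g * h) * h⁻¹ := by group
      rw [this, key]; group)
  -- the group elements
  have diag : ∀ t : Kˣ, ∃ g : D.Tw, g • (∞ : OnePoint K) = ∞ ∧
      ∀ x : K, g • (x : OnePoint K) = (((t : K) * D.s (D.κ t) x : K) : OnePoint K) := by
    intro t
    have hk : D.k (GeneralLinearGroup.mkOfDetNeZero !![(t : K), 0; 0, 1] (by simp)) = D.κ t := by
      unfold k
      congr 1
      ext
      simp [GeneralLinearGroup.mkOfDetNeZero]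
    refine ⟨⟨D.perm (GeneralLinearGroup.mkOfDetNeZero !![(t : K), 0; 0, 1] (by simp)),
      D.perm_mem _⟩, ?_, ?_⟩
    · change D.perm _ ∞ = ∞
      rw [perm_apply, S_infty, OnePoint.smul_infty_eq_self_iff]
      simp [GeneralLinearGroup.mkOfDetNeZero]
    · intro x
      change D.perm _ (x : OnePoint K) = _
      rw [perm_apply, hk, S_coe, OnePoint.smul_some_eq_ite]
      simp [GeneralLinearGroup.mkOfDetNeZero]
  obtain ⟨g₁, g₁i, g₁x⟩ := diag u
  obtain ⟨g₂, g₂i, g₂x⟩ := diag w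
  have mat : ∀ g : D.Tw, ∃ A : Matrix.GeneralLinearGroup (Fin 2) P,
      ∀ (v : Fin 2 → P) (hv : v ≠ 0) (w : Fin 2 → P) (hw : w ≠ 0),
        w = Matrix.mulVec (A : Matrix (Fin 2) (Fin 2) P) v →
          (e.symm.trans ((MulAction.toPerm g).trans e)) (Projectivization.mk P v hv) =
            Projectivization.mk P w hw := by
    intro g
    exact (he _).mp ⟨g, fun x => by simp⟩
  obtain ⟨A, hA⟩ := mat g₁
  obtain ⟨B, hB⟩ := mat g₂
  have inj : ∀ (C : Matrix.GeneralLinearGroup (Fin 2) P) (v : Fin 2 → P), v ≠ 0 →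
      Matrix.mulVec (C : Matrix (Fin 2) (Fin 2) P) v ≠ 0 := by
    intro C v hv h
    apply hv
    have : Matrix.mulVec (C⁻¹ : Matrix.GeneralLinearGroup (Fin 2) P).1
        (Matrix.mulVec (C : Matrix (Fin 2) (Fin 2) P) v) = v := by
      rw [Matrix.mulVec_mulVec, ← Units.val_mul, inv_mul_cancel, Units.val_one, Matrix.one_mulVec]
    rw [← this, h, Matrix.mulVec_zero]
  -- eigenvectors
  have eig : ∀ (C : Matrix.GeneralLinearGroup (Fin 2) P) (g : D.Tw) (p : OnePoint K),
      (∀ (v : Fin 2 → P) (hv : v ≠ 0) (w : Fin 2 → P) (hw : w ≠ 0),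
        w = Matrix.mulVec (C : Matrix (Fin 2) (Fin 2) P) v →
          (e.symm.trans ((MulAction.toPerm g).trans e)) (Projectivization.mk P v hv) =
            Projectivization.mk P w hw) → g • p = p →
      ∃ c : P, Matrix.mulVec (C : Matrix (Fin 2) (Fin 2) P) (e p).rep = c • (e p).rep := by
    intro C g p hC hg
    have h1 := hC (e p).rep (e p).rep_nonzero _ (inj C _ (e p).rep_nonzero) rfl
    rw [Projectivization.mk_rep] at h1
    simp only [Equiv.trans_apply, Equiv.symm_apply_apply, MulAction.toPerm_apply, hg] at h1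
    have h2 := h1
    conv_lhs at h2 => rw [← Projectivization.mk_rep (e p)]
    rw [eq_comm, Projectivization.mk_eq_mk_iff'] at h2
    obtain ⟨c, hc⟩ := h2
    exact ⟨c, hc.symm⟩
  have z₁ : g₁ • ((0 : K) : OnePoint K) = ((0 : K) : OnePoint K) := by rw [g₁x]; simp
  have z₂ : g₂ • ((0 : K) : OnePoint K) = ((0 : K) : OnePoint K) := by rw [g₂x]; simp
  obtain ⟨a₁, ha₁⟩ := eig A g₁ ∞ hA g₁i
  obtain ⟨a₂, ha₂⟩ := eig A g₁ _ hA z₁
  obtain ⟨b₁, hb₁⟩ := eig B g₂ ∞ hB g₂i
  obtain ⟨b₂, hb₂⟩ := eig B g₂ _ hB z₂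
  have hne : e ∞ ≠ e ((0 : K) : OnePoint K) := fun h => hi0 (e.injective h)
  have hli : LinearIndependent P ![(e ∞).rep, (e ((0 : K) : OnePoint K)).rep] := by
    have h := (Projectivization.independent_pair_iff_ne _ _).mpr hne
    rw [Projectivization.independent_iff] at h
    have hfun : ![(e ∞).rep, (e ((0 : K) : OnePoint K)).rep] =
        Projectivization.rep ∘ ![e ∞, e ((0 : K) : OnePoint K)] := by
      funext i
      fin_cases i <;> rfl
    rw [hfun]
    exact h
  have hcomm : (A : Matrix (Fin 2) (Fin 2) P) * B = B * A := by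
    apply (Matrix.toLin' (R := P)).injective
    refine (basisOfLinearIndependentOfCardEqFinrank hli (by simp)).ext ?_
    intro i
    rw [coe_basisOfLinearIndependentOfCardEqFinrank]
    fin_cases i
    · simp [Matrix.toLin'_apply, ha₁, hb₁, smul_smul, mul_comm]
    · simp [Matrix.toLin'_apply, ha₂, hb₂, smul_smul, mul_comm]
  have hfin : g₁ • g₂ • ((1 : K) : OnePoint K) = g₂ • g₁ • ((1 : K) : OnePoint K) := by
    apply e.injective
    have hr := (e ((1 : K) : OnePoint K)).rep_nonzero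
    have e₁ := hA _ hr _ (inj A _ hr) rfl
    have e₂ := hB _ hr _ (inj B _ hr) rfl
    have e₃ := hA _ (inj B _ hr) _ (inj A _ (inj B _ hr)) rfl
    have e₄ := hB _ (inj A _ hr) _ (inj B _ (inj A _ hr)) rfl
    rw [Projectivization.mk_rep] at e₁ e₂
    simp only [Equiv.trans_apply, Equiv.symm_apply_apply, MulAction.toPerm_apply] at e₁ e₂ e₃ e₄
    rw [← e₂] at e₃
    rw [← e₁] at e₄
    rw [Equiv.symm_apply_apply] at e₃ e₄
    rw [e₃, e₄]
    congr 1
    rw [Matrix.mulVec_mulVec, Matrix.mulVec_mulVec, hcomm]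
  rw [g₂x, g₁x, g₁x, g₂x, hκu, hκw] at hfin
  simp only [s_one, s_neg_one, map_one, mul_one, OnePoint.coe_eq_coe] at hfin
  apply hσw
  have h9 : (u : K) * D.σ w = u * w := by rw [hfin, mul_comm]
  exact mul_left_cancel₀ (Units.ne_zero u) h9

end TwData

end Pool.Agent.Helper51
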